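import Mathlib
import Pool.Agent.H457Adm.Defs
import Pool.Agent.H457Adm.Upper
import Pool.Agent.H457Adm.Lower6

/-!
# Gaps in infinite admissible sets: the attainable exponents are exactly `c ≥ (5 + √17) / 2`

Upper half (`Upper.attainable_upper`): an explicit admissible set, with the critical exponent.

Lower half (`Lower.lower`).  Fix a large `k`; digit `i` is covered when, for some scale
`2^ρ ≤ 2^(ik)`, `A` has at least `(i+1)(i+2) 2^((i+1)k-ρ)` disjoint pairs with difference in
`[2^ρ, 2^(ρ+1))`.  Let `S(I)` be the number of covered digits `< I` and `N(x)` the number of
elements `< x`.
* (α) Exchanging pairs gives about `2^(kS(I))` sums of the same number of elements in an interval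
  of length `2^(Ik)`; adding initial elements of `A` (which changes the number of summands) keeps
  all sums different by admissibility, so `2^(kS(I))` times the number of initial elements used is
  `≪ 2^(Ik)`.
* (β) If digit `s` is uncovered, small vertex covers show that some interval of length `2^(sk)`
  contains few elements, so `2^(sk) ≤ N(2^(sk))^(c+o(1))`.
* (γ) If digit `s` is uncovered, vertex covers and a dyadic count show that there are many windows
  of consecutive covered digits below `s`.
A combinatorial argument then shows that `5c - c² - 2 > 0` is impossible.
-/

set_option autoImplicit false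

namespace Pool.Agent.Results.MP_a0ba93_nt.Main

open Pool.Agent.H457Adm

/-- The set of attainable exponents is exactly `[(5 + √17) / 2, ∞)`. -/
theorem result : {c : ℝ | Attainable c} = Set.Ici ((5 + √17) / 2) := by
  ext c
  exact ⟨fun h => Lower.lower c h, fun h => Upper.attainable_upper h⟩

end Pool.Agent.Results.MP_a0ba93_nt.Main
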