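import Mathlib
import Pool.Agent.H457Adm.Defs
import Pool.Agent.H457Adm.Upper

/-!
# Gaps in infinite admissible sets: every `c ≥ (5 + √17) / 2` is attainable

Construction.  For suitable powers of two `p_0, p_1, ...` put `b_0 = 1`,
`b_{j+1} = b_j (1 + 16 p_j^4)`, `M_j = 8 p_j b_j`.  Stage `j` consists of the numbers
`b_j + M_j i` (`1 ≤ i ≤ p_j`), the sparser numbers `b_j + 2 p_j^2 M_j i` (`1 ≤ i < p_j`) and the
cluster `b_{j+1} + M_j i` (`0 ≤ i < p_j^2`).  The union of all stages is admissible.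
-/

set_option autoImplicit false

namespace Pool.Agent.Results.MP_a0ba93_nt.Sharp

open Pool.Agent.H457Adm

/-- Every `c ≥ (5 + √17) / 2` is attainable. -/
theorem result : ∀ c : ℝ, (5 + √17) / 2 ≤ c → Attainable c :=
  fun _ hc => Upper.attainable_upper hc

end Pool.Agent.Results.MP_a0ba93_nt.Sharp
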